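import Pool.Agent.K1H2.BI.Stm

/-!
# Branching internal DLA on `Z^3`: iteration of one-step inequalities for the stopped process
-/

namespace Pool.Agent.K1H96.BI

open MeasureTheory ProbabilityTheory Filter Pool.Agent.K1H2.BI
open scoped ENNReal Topology BigOperators

universe u

theorem indep_past {Ω : Type u} [mΩ : MeasurableSpace Ω] (P : Measure Ω)
    (ν : PMF ℕ) (ins : ℕ → Ω → Inst) (hD : Drawn P ν ins) (N : ℕ) :
    Indep (past ins N) (MeasurableSpace.comap (ins N) inferInstance) P := by
  have h1 : iIndep (fun j => MeasurableSpace.comap (ins j) inferInstance) P := hD.indep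
  have h2 := indep_iSup_of_disjoint (m := fun j => MeasurableSpace.comap (ins j) inferInstance)
    (fun j => (hD.meas j).comap_le) h1 (S := ↑(Finset.range N)) (T := {N})
    (by
      rw [Set.disjoint_singleton_right]
      simp)
  refine indep_of_indep_of_le_left (indep_of_indep_of_le_right h2 ?_) ?_
  · simp
  · simp [past]

theorem key {Ω : Type u} [mΩ : MeasurableSpace Ω] (P : Measure Ω) [IsProbabilityMeasure P]
    (ν : PMF ℕ) (ins : ℕ → Ω → Inst) (hD : Drawn P ν ins) (N : ℕ)
    (hle : past ins N ≤ mΩ)
    {E : Type*} [MeasurableSpace E] [Countable E] [MeasurableSingletonClass E]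
    (Z : Ω → E) (hZ : Measurable[past ins N] Z) (g : E → Inst → ℝ≥0∞)
    (hg : ∀ e, Measurable (g e)) :
    ∫⁻ ω, g (Z ω) (ins N ω) ∂P = ∫⁻ ω, ∫⁻ i, g (Z ω) i ∂(law ν) ∂P := by
  have hZ' : Measurable Z := hZ.mono hle le_rfl
  have hI : IndepFun Z (ins N) P := by
    rw [IndepFun_iff_Indep]
    exact indep_of_indep_of_le_left (indep_past P ν ins hD N) (measurable_iff_comap_le.mp hZ)
  have hmap := (indepFun_iff_map_prod_eq_prod_map_map hZ'.aemeasurable
    (hD.meas N).aemeasurable).mp hI
  have hG : Measurable (fun p : E × Inst => g p.1 p.2) :=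
    measurable_from_prod_countable_right fun e => hg e
  have : IsProbabilityMeasure (law ν) := by
    rw [← hD.law N]
    exact Measure.isProbabilityMeasure_map (hD.meas N).aemeasurable
  calc ∫⁻ ω, g (Z ω) (ins N ω) ∂P
      = ∫⁻ p, g p.1 p.2 ∂(P.map fun ω => (Z ω, ins N ω)) := by
        rw [lintegral_map hG (hZ'.prodMk (hD.meas N))]
    _ = ∫⁻ e, ∫⁻ i, g e i ∂(law ν) ∂(P.map Z) := by
        rw [hmap, hD.law N, lintegral_prod _ hG.aemeasurable]
    _ = _ := by
        rw [lintegral_map _ hZ']
        exact hG.lintegral_prod_right'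

theorem t_LYA (hM : S_MEAS.{u}) (hF : S_FRZ) (hT : S_TRAJ) : S_LYA.{u} := by
  intro Ω _ P _ ν ins hD Fr n H hH V C hstep k
  obtain ⟨hC, hev, hM⟩ := hM
  obtain ⟨hX, hle, hmono, hfrz⟩ := hM Ω P ν ins hD
  have := hC
  have : IsProbabilityMeasure (law ν) := by
    rw [← hD.law 0]
    exact Measure.isProbabilityMeasure_map (hD.meas 0).aemeasurable
  have hHm : MeasurableSet H := hle n _ hH
  induction k with
  | zero => simp [frz]
  | succ k ih =>
    classical
    set Z : Ω → State × (State × ℕ) × Bool := fun ω =>
      (X (at' ins ω) n, frz Fr (at' ins ω) n k, decide (ω ∈ H)) with hZdef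
    have hZ : Measurable[past ins (n + k)] Z := by
      refine Measurable.prodMk ((hX n).mono (hmono n (n + k) (by omega)) le_rfl) ?_
      refine Measurable.prodMk (hfrz Fr n k) ?_
      have hH' : MeasurableSet[past ins (n + k)] H := hmono n (n + k) (by omega) _ hH
      refine @measurable_to_bool Ω (past ins (n + k)) _ ?_
      convert hH' using 1
      ext ω
      simp
    set g : State × (State × ℕ) × Bool → Inst → ℝ≥0∞ := fun z i =>
      if z.2.2 = true then
        (if z.2.1.1 ∈ Fr then V z.1 z.2.1 else V z.1 (event z.2.1.1 i, n + k + 1)) else 0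
      with hgdef
    have hgm : ∀ z, Measurable (g z) := by
      intro z
      simp only [hgdef]
      split_ifs
      · exact measurable_const
      · have h1 : Measurable (fun i => event z.2.1.1 i) := hev.comp measurable_prodMk_left
        have h2 : Measurable (fun s : State => V z.1 (s, n + k + 1)) := measurable_from_top
        exact h2.comp h1
      · exact measurable_const
    have hkey := key P ν ins hD (n + k) (hle (n + k)) Z hZ g hgm
    calc ∫⁻ ω in H, V (X (at' ins ω) n) (frz Fr (at' ins ω) n (k + 1)) ∂P
        = ∫⁻ ω, g (Z ω) (ins (n + k) ω) ∂P := by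
          rw [← lintegral_indicator hHm]
          refine lintegral_congr fun ω => ?_
          by_cases hω : ω ∈ H
          · simp only [Set.indicator_of_mem hω, hgdef, hZdef, decide_eq_true hω, if_true, frz]
            split_ifs <;> rfl
          · simp [hgdef, hZdef, hω]
      _ = ∫⁻ ω, ∫⁻ i, g (Z ω) i ∂(law ν) ∂P := hkey
      _ ≤ ∫⁻ ω in H, (V (X (at' ins ω) n) (frz Fr (at' ins ω) n k) + C) ∂P := by
          rw [← lintegral_indicator hHm]
          refine lintegral_mono fun ω => ?_
          by_cases hω : ω ∈ H
          · simp only [Set.indicator_of_mem hω, hgdef, hZdef, decide_eq_true hω, if_true]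
            by_cases hfr : (frz Fr (at' ins ω) n k).1 ∈ Fr
            · simp [hfr]
            · simp only [hfr, if_false]
              obtain ⟨j, hjk, hj, hj2, -⟩ := hF Fr (at' ins ω) n k
              rw [hj] at hfr ⊢
              have hjk' : j = k := by
                by_contra hne
                exact hfr (hj2 (lt_of_le_of_ne hjk hne))
              subst hjk'
              exact hstep _ _ _ ((hT (at' ins ω)).1 _) hfr
          · simp [hgdef, hZdef, hω]
      _ = ∫⁻ ω in H, V (X (at' ins ω) n) (frz Fr (at' ins ω) n k) ∂P + C * P H := by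
          rw [lintegral_add_right _ measurable_const]
          simp
      _ ≤ (∫⁻ ω in H, V (X (at' ins ω) n) (X (at' ins ω) n, n) ∂P + k * C) + C := by
          refine add_le_add ih ?_
          calc C * P H ≤ C * 1 := by gcongr; exact prob_le_one
            _ = C := mul_one C
      _ = _ := by
          push_cast
          ring

end Pool.Agent.K1H96.BI
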