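import Pool.Agent.K1H2.BI.Stm2

/-!
# Branching internal DLA on `Z^3`: one-step inequality for the sum of squares
-/

namespace Pool.Agent.K1H96.BI

open MeasureTheory ProbabilityTheory Filter Pool.Agent.K1H2.BI
open scoped ENNReal Topology BigOperators

universe u

theorem nsq_nonneg (x : Site) : 0 ≤ nsq x := Finset.sum_nonneg fun _ _ => sq_nonneg _

theorem nsq_step (x : Site) (e : Dir) :
    nsq (x + stepOf e) = nsq x + 2 * (if e.2 then 1 else -1) * (x e.1 : ℝ) + 1 := by
  obtain ⟨i, b⟩ := e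
  fin_cases i <;> cases b <;> simp [nsq, stepOf, Fin.sum_univ_three] <;> ring

theorem sum_nsq_step (x : Site) : (∑ e : Dir, nsq (x + stepOf e)) / 6 = nsq x + 1 := by
  simp only [nsq_step, Fintype.sum_prod_type, Fin.sum_univ_three, Fintype.sum_bool]
  simp
  ring

theorem nsq_le {x : Site} {R : ℝ} (h : len x ≤ R) : nsq x ≤ R ^ 2 := by
  have h0 : nsq x = len x ^ 2 := by
    exact (Real.sq_sqrt (nsq_nonneg x)).symm
  rw [h0]
  have : 0 ≤ len x := Real.sqrt_nonneg _
  gcongr

theorem nsq_step_le {x : Site} {R : ℝ} (hR : 0 ≤ R) (h : len x ≤ R) (e : Dir) :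
    nsq (x + stepOf e) ≤ (R + 1) ^ 2 := by
  have h1 := nsq_le h
  have h2 : (x e.1 : ℝ) ^ 2 ≤ nsq x :=
    Finset.single_le_sum (f := fun i => (x i : ℝ) ^ 2) (fun i _ => sq_nonneg _) (Finset.mem_univ _)
  have h3 : |(x e.1 : ℝ)| ≤ R := abs_le_of_sq_le_sq (h2.trans h1) hR
  have h4 := abs_le.mp h3
  rw [nsq_step]
  split_ifs <;> nlinarith [h4.1, h4.2]

theorem sum_map_nonneg (h : Dir → ℝ) (h0 : ∀ e, 0 ≤ h e) (l : List Dir) : 0 ≤ (l.map h).sum := by
  induction l with
  | nil => simp
  | cons a l ih => simp only [List.map_cons, List.sum_cons]; linarith [h0 a]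

theorem sum_map_le (h : Dir → ℝ) (B : ℝ) (hB : ∀ e, h e ≤ B) (l : List Dir) :
    (l.map h).sum ≤ l.length * B := by
  induction l with
  | nil => simp
  | cons a l ih =>
    simp only [List.map_cons, List.sum_cons, List.length_cons]
    push_cast
    linarith [hB a]

theorem t_ONE4 (hP : S_PATH) (hK : S_KIDS) (hM : S_MEAS.{u}) : S_ONE4 := by
  intro ν hν
  obtain ⟨-, hKi, hK1, -, hKh⟩ := hK ν hν
  obtain ⟨-, hev, -⟩ := hM
  set μ : Measure (List Dir) := (kids ν).toMeasure with hμ
  have hμp : IsProbabilityMeasure μ := by rw [hμ]; infer_instance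
  set M : ℝ := ∫ l : List Dir, (l.length : ℝ) ^ 2 ∂μ with hMdef
  have hM0 : 0 ≤ M := integral_nonneg fun l => sq_nonneg _
  refine ⟨16 * (2 * M + 2), by positivity, ?_⟩
  intro s R n hs hR hA
  have hR0 : 0 ≤ R := by linarith
  set b : ℝ := (R + 1) ^ 2 with hb
  have hb0 : 0 ≤ b := by positivity
  set c : ℝ := Y b s - n with hc
  -- inner inequality
  have hin : ∀ u : ℝ, ∫⁻ l : List Dir,
      ENNReal.ofReal ((Y b (event s (l, u)) - ((n + 1 : ℕ) : ℝ)) ^ 2) ∂μ
      ≤ ENNReal.ofReal (c ^ 2) + ENNReal.ofReal (16 * (2 * M + 2) * R ^ 4) := by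
    intro u
    set x : Site := s.L.getD (pick s.L u) 0 with hx
    have hxL : x ∈ s.L := (hP s ([], u) hs).1
    have hxA : x ∈ s.A := hs.2.1 x hxL
    have hxR := hA x hxA
    have hphix : phi b x = nsq x := by
      have := nsq_le hxR
      unfold phi
      apply min_eq_left
      rw [hb]; nlinarith
    have hphie : ∀ e, phi b (x + stepOf e) = nsq (x + stepOf e) := fun e =>
      min_eq_left (nsq_step_le hR0 hxR e)
    set h : Dir → ℝ := fun e => nsq (x + stepOf e) with hh
    set D : List Dir → ℝ := fun l => (l.map h).sum - nsq x - 1 with hD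
    have hY : ∀ l : List Dir, Y b (event s (l, u)) - ((n + 1 : ℕ) : ℝ) = c + D l := by
      intro l
      have h1 := (hP s (l, u) hs).2.2.2.2.2.1 b hb0
      have h2 : who s (l, u) = x := rfl
      rw [h1, h2, hphix]
      simp only [hphie, hD, hc, hh]
      push_cast
      ring
    have hDi : Integrable D μ := (((hKh h).1.sub (integrable_const _)).sub (integrable_const _))
    have hDint : ∫ l, D l ∂μ = 0 := by
      have h1 : ∫ l, D l ∂μ = ∫ l : List Dir, (l.map h).sum ∂μ - nsq x - 1 := by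
        simp only [hD]
        have e1 : Integrable (fun l : List Dir => (l.map h).sum - nsq x) μ :=
          (hKh h).1.sub (integrable_const _)
        rw [integral_sub e1 (integrable_const _), integral_sub (hKh h).1 (integrable_const _)]
        simp
      rw [h1, (hKh h).2, hh, sum_nsq_step]
      ring
    have hDb : ∀ l, D l ^ 2 ≤ 16 * R ^ 4 * (2 * (l.length : ℝ) ^ 2 + 2) := by
      intro l
      have h0 : 0 ≤ (l.map h).sum := sum_map_nonneg h (fun e => nsq_nonneg _) l
      have h1 : (l.map h).sum ≤ l.length * (4 * R ^ 2) := by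
        refine sum_map_le h _ (fun e => ?_) l
        have := nsq_step_le hR0 hxR e
        simp only [hh]
        nlinarith
      have h2 := nsq_le hxR
      have h3 := nsq_nonneg x
      have hl : (0 : ℝ) ≤ l.length := Nat.cast_nonneg _
      have h4 : |D l| ≤ 4 * R ^ 2 * (l.length + 1) := by
        rw [abs_le]
        constructor
        · simp only [hD]
          have : 0 ≤ 4 * R ^ 2 * (l.length : ℝ) := by positivity
          nlinarith
        · simp only [hD]
          nlinarith
      have h5 : D l ^ 2 ≤ (4 * R ^ 2 * (l.length + 1)) ^ 2 := by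
        rw [← sq_abs]
        exact pow_le_pow_left₀ (abs_nonneg _) h4 2
      refine h5.trans ?_
      have h6 : ((l.length : ℝ) + 1) ^ 2 ≤ 2 * (l.length : ℝ) ^ 2 + 2 := by
        nlinarith [sq_nonneg ((l.length : ℝ) - 1)]
      calc (4 * R ^ 2 * ((l.length : ℝ) + 1)) ^ 2 = 16 * R ^ 4 * ((l.length : ℝ) + 1) ^ 2 := by ring
        _ ≤ _ := by gcongr
    have hbd : Integrable (fun l : List Dir => 16 * R ^ 4 * (2 * (l.length : ℝ) ^ 2 + 2)) μ :=
      ((hKi.const_mul 2).add (integrable_const _)).const_mul _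
    have hD2 : Integrable (fun l => D l ^ 2) μ := by
      refine hbd.mono' measurable_from_top.aestronglyMeasurable (Filter.Eventually.of_forall ?_)
      intro l
      rw [Real.norm_eq_abs, abs_of_nonneg (sq_nonneg _)]
      exact hDb l
    have hsq : ∀ l, (c + D l) ^ 2 = c ^ 2 + (2 * c) * D l + D l ^ 2 := fun l => by ring
    have hcD : Integrable (fun l => (c + D l) ^ 2) μ := by
      simp only [hsq]
      exact ((integrable_const _).add (hDi.const_mul _)).add hD2
    have hle : ∫ l, (c + D l) ^ 2 ∂μ ≤ c ^ 2 + 16 * (2 * M + 2) * R ^ 4 := by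
      have h1 : ∫ l, (c + D l) ^ 2 ∂μ = c ^ 2 + ∫ l, D l ^ 2 ∂μ := by
        simp only [hsq]
        have e1 : Integrable (fun l : List Dir => c ^ 2 + 2 * c * D l) μ :=
          (integrable_const _).add (hDi.const_mul _)
        rw [integral_add e1 hD2,
          integral_add (integrable_const _) (hDi.const_mul _), integral_const_mul, hDint]
        simp
      have h2 : ∫ l, D l ^ 2 ∂μ ≤ ∫ l : List Dir, 16 * R ^ 4 * (2 * (l.length : ℝ) ^ 2 + 2) ∂μ :=
        integral_mono hD2 hbd hDb
      have h3 : ∫ l : List Dir, 16 * R ^ 4 * (2 * (l.length : ℝ) ^ 2 + 2) ∂μ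
          = 16 * R ^ 4 * (2 * M + 2) := by
        rw [integral_const_mul, integral_add (hKi.const_mul 2) (integrable_const _),
          integral_const_mul]
        simp [hMdef]
      rw [h1]
      nlinarith
    calc ∫⁻ l : List Dir, ENNReal.ofReal ((Y b (event s (l, u)) - ((n + 1 : ℕ) : ℝ)) ^ 2) ∂μ
        = ∫⁻ l : List Dir, ENNReal.ofReal ((c + D l) ^ 2) ∂μ := by
          refine lintegral_congr fun l => ?_
          rw [hY l]
      _ = ENNReal.ofReal (∫ l, (c + D l) ^ 2 ∂μ) :=
          (ofReal_integral_eq_lintegral_ofReal hcD (Filter.Eventually.of_forall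
            fun l => sq_nonneg _)).symm
      _ ≤ ENNReal.ofReal (c ^ 2 + 16 * (2 * M + 2) * R ^ 4) := ENNReal.ofReal_le_ofReal hle
      _ = _ := ENNReal.ofReal_add (sq_nonneg _) (by positivity)
  -- integrate over the second coordinate
  have hvp : IsProbabilityMeasure (volume.restrict (Set.Icc (0 : ℝ) 1)) := ⟨by simp⟩
  have hF : Measurable fun i : Inst =>
      ENNReal.ofReal ((Y b (event s i) - ((n + 1 : ℕ) : ℝ)) ^ 2) := by
    have h1 : Measurable (fun i => event s i) := hev.comp measurable_prodMk_left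
    have h2 : Measurable (fun s' : State =>
      ENNReal.ofReal ((Y b s' - ((n + 1 : ℕ) : ℝ)) ^ 2)) := measurable_from_top
    exact h2.comp h1
  calc ∫⁻ i, ENNReal.ofReal ((Y b (event s i) - ((n + 1 : ℕ) : ℝ)) ^ 2) ∂(law ν)
      = ∫⁻ u, ∫⁻ l, ENNReal.ofReal ((Y b (event s (l, u)) - ((n + 1 : ℕ) : ℝ)) ^ 2) ∂μ
          ∂(volume.restrict (Set.Icc (0 : ℝ) 1)) := by
        unfold law
        rw [lintegral_prod_symm _ hF.aemeasurable]
    _ ≤ ∫⁻ _ : ℝ, (ENNReal.ofReal (c ^ 2) + ENNReal.ofReal (16 * (2 * M + 2) * R ^ 4))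
          ∂(volume.restrict (Set.Icc (0 : ℝ) 1)) := lintegral_mono fun u => hin u
    _ = _ := by rw [lintegral_const]; simp

end Pool.Agent.K1H96.BI
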