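import Pool.Agent.K1H53.BI.Plan2

/-!
# The functions `qq` do not see the order of the particles
-/

set_option autoImplicit false

open scoped ENNReal
open Finset

namespace Pool.Agent.K1H96.BI

open Pool.Agent.K1H53.BI

theorem pick_perm {L L' : List V} (h : L.Perm L') : ∀ g : V → List V → ℝ≥0∞,
    (∀ x l l', l.Perm l' → g x l = g x l') →
    ∑ i ∈ range L.length, g (L.getD i 0) (L.eraseIdx i) =
      ∑ i ∈ range L'.length, g (L'.getD i 0) (L'.eraseIdx i) := by
  induction h with
  | nil => intro g _; rfl
  | @cons a l l' hl ih =>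
    intro g hg
    rw [List.length_cons, List.length_cons, sum_range_succ', sum_range_succ']
    simp only [List.getD_cons_succ, List.eraseIdx_cons_succ, List.getD_cons_zero,
      List.eraseIdx_cons_zero]
    rw [ih (fun x l => g x (a :: l)) (fun x l l' h => hg x _ _ (h.cons a)), hg a _ _ hl]
  | swap a c l =>
    intro g hg
    simp only [List.length_cons, sum_range_succ', List.getD_cons_succ, List.eraseIdx_cons_succ,
      List.getD_cons_zero, List.eraseIdx_cons_zero]
    rw [add_assoc, add_assoc, add_comm (g a (c :: l))]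
    congr 1
    exact sum_congr rfl fun i _ => hg _ _ _ (List.Perm.swap _ _ _)
  | trans _ _ ih1 ih2 =>
    intro g hg
    rw [ih1 g hg, ih2 g hg]

theorem Ex_step (ν : PMF ℕ) (s : St) (h : s.L ≠ []) (f : St → ℝ≥0∞) :
    Ex (step ν s) f = ∑ i ∈ range s.L.length, (s.L.length : ℝ≥0∞)⁻¹ *
      Ex (top ν (s.L.getD i 0) ⟨s.A, s.L.eraseIdx i, s.m⟩) f := by
  have hne : (range s.L.length).Nonempty := ⟨0, Finset.mem_range.2 (List.length_pos_iff.2 h)⟩
  have e : step ν s = (PMF.uniformOfFinset (range s.L.length) hne).bind fun i =>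
      top ν (s.L.getD i 0) ⟨s.A, s.L.eraseIdx i, s.m⟩ := by
    rw [step, dif_neg h]; rfl
  rw [e, Ex_bind]
  have e2 : ∀ g : ℕ → ℝ≥0∞, Ex (PMF.uniformOfFinset (range s.L.length) hne) g =
      ∑ i ∈ range s.L.length, (s.L.length : ℝ≥0∞)⁻¹ * g i := by
    intro g
    unfold Ex
    rw [tsum_eq_sum (s := range s.L.length)]
    · refine sum_congr rfl fun i hi => ?_
      rw [PMF.uniformOfFinset_apply, if_pos hi, card_range]
    · intro i hi
      rw [PMF.uniformOfFinset_apply, if_neg hi, zero_mul]
  rw [e2]

theorem fin_iff {s s' : St} (h : Eqv s s') : Fin' s ↔ Fin' s' := by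
  unfold Fin'
  rw [h.m]
  constructor
  · rintro ⟨h1, h2⟩
    have := h.L
    rw [h1] at this
    exact ⟨List.nil_perm.mp this, h2⟩
  · rintro ⟨h1, h2⟩
    have := h.L
    rw [h1] at this
    exact ⟨List.perm_nil.mp this, h2⟩

theorem t_QS : S_QS := by
  intro hC ν G n
  induction n with
  | zero =>
    intro s s' h
    have hiff : (Fin' s ∧ G s.A) ↔ (Fin' s' ∧ G s'.A) := by rw [h.A, fin_iff h]
    simp only [qq, ind]
    by_cases hh : Fin' s ∧ G s.A
    · rw [if_pos hh, if_pos (hiff.mp hh)]
    · rw [if_neg hh, if_neg (fun h' => hh (hiff.mpr h'))]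
  | succ n ih =>
    intro s s' h
    simp only [qq]
    rw [fin_iff h]
    split_ifs with hf
    · rfl
    · by_cases hL : s.L = []
      · have hL' : s'.L = [] := by
          have := h.L
          rw [hL] at this
          exact List.nil_perm.mp this
        have : s = s' := by
          obtain ⟨A, L, m⟩ := s
          obtain ⟨A', L', m'⟩ := s'
          obtain ⟨h1, -, h3⟩ := h
          simp only at h1 h3 hL hL'
          rw [h1, h3, hL, hL']
        rw [this]
      · have hL' : s'.L ≠ [] := by
          intro h0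
          have := h.L
          rw [h0] at this
          exact hL (List.perm_nil.mp this)
        rw [Ex_step ν s hL, Ex_step ν s' hL', ← h.A, ← h.m, h.L.length_eq]
        have := pick_perm h.L (fun x l => (s'.L.length : ℝ≥0∞)⁻¹ *
          Ex (top ν x ⟨s.A, l, s.m⟩) (qq ν G n)) (fun x l l' hl => by
            have := ((hC.1 ν (qq ν G n) ih).1 x) ⟨s.A, l, s.m⟩ ⟨s.A, l', s.m⟩ ⟨rfl, hl, rfl⟩
            simp only at this
            rw [this])
        rw [← h.L.length_eq]
        rw [← h.L.length_eq] at this
        exact this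

end Pool.Agent.K1H96.BI
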